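import Pool.Graph.R_pool_sql_team_seeded_63374d34.N554.SL.Transfer

/-!
Two subsets of a shell of the box, of relative density `1/q` for an arbitrary `q`, realise every
admissible squared distance. (The library treats `q = 6`.) The shell has the width given by `L⁴`, and
the main arc ends at `L³ / (κ D²)`.
-/

set_option autoImplicit false

namespace Pool.Agent.H5.TP

open Finset Complex MeasureTheory Pool.Agent.N554.SL

/-- **the cross-density theorem for an arbitrary density** -/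
theorem cross {κ D : ℕ} {L q R : ℝ} (hD : 1 ≤ D) (hq : 1 ≤ q) (hL : 10 ^ 9 * q ^ 2 ≤ L)
    (hκ : 10 ^ 22 * (L ^ 4) ^ 8 ≤ κ)
    (A B : Finset (Fin (4 * κ ^ 2) → Fi D)) (N : ℤ)
    (hpar : ∀ a ∈ A, ∀ b ∈ B, (2 : ℤ) ∣ N - dist2 a b)
    (hA : ∀ a ∈ A, |((sqz a : ℤ) : ℝ) - R| ≤ κ * (D : ℝ) ^ 2 / (12 * L ^ 4))
    (hB : ∀ a ∈ B, |((sqz a : ℤ) : ℝ) - R| ≤ κ * (D : ℝ) ^ 2 / (12 * L ^ 4))
    (hN : |(N : ℝ) - 2 * R| ≤ 2 * (κ * (D : ℝ) ^ 2 / (12 * L ^ 4)))
    (hcA : nn D ^ (4 * κ ^ 2) / (384 * q * L ^ 4) ≤ #A)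
    (hcB : nn D ^ (4 * κ ^ 2) / (384 * q * L ^ 4) ≤ #B) :
    ∃ a ∈ A, ∃ b ∈ B, dist2 a b = N := by
  by_contra hcon
  push Not at hcon
  have hint := int_FF A B N hpar hcon
  have hn := nn_pos D
  have hq0 : 0 < q := by linarith
  have hq2 : 1 ≤ q ^ 2 := one_le_pow₀ hq
  have hL9 : 10 ^ 9 ≤ L := by nlinarith
  have hL1 : 1 ≤ L := by linarith
  have hL0 : 0 < L := by linarith
  set T : ℝ := L ^ 4 with hT
  set S : ℝ := L ^ 3 with hS
  have hT1 : 1 ≤ T := one_le_pow₀ hL1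
  have hT0 : 0 < T := by linarith
  have hS1 : 1 ≤ S := one_le_pow₀ hL1
  have hS0 : 0 < S := by linarith
  have hST : S ≤ T := pow_le_pow_right₀ hL1 (by norm_num)
  have hD' : (1 : ℝ) ≤ D := by exact_mod_cast hD
  have hD0 : (0 : ℝ) < D := by linarith
  have hT8 : T ≤ T ^ 8 := le_self_pow₀ hT1 (by norm_num)
  have hκ2 : 2 * S ≤ κ := by linarith
  have hκ0 : (0 : ℝ) < κ := by linarith
  have hκ1 : 2 ≤ κ := by
    have : (2 : ℝ) ≤ κ := by linarith
    exact_mod_cast this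
  set P : ℝ := nn D ^ (8 * κ ^ 2) with hP
  have hP0 : 0 < P := by positivity
  set δ : ℝ := 1 / (4 * 10 ^ 9 * T ^ 3) with hδ
  have hδ0 : 0 < δ := by positivity
  set t0 : ℝ := 1 / (10 * κ * (D : ℝ) ^ 2) with ht0
  set t1 : ℝ := S / (κ * (D : ℝ) ^ 2) with ht1
  set t2 : ℝ := 1 / (2 * (D : ℝ) ^ 2) with ht2
  have hDD : 0 < (D : ℝ) ^ 2 := by positivity
  have h00 : 0 ≤ t0 := by positivity
  have h01 : t0 ≤ t1 := by
    rw [ht0, ht1, div_le_div_iff₀ (by positivity) (by positivity)]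
    have : 0 < (κ : ℝ) * (D : ℝ) ^ 2 := by positivity
    nlinarith
  have h12 : t1 ≤ t2 := by
    rw [ht1, ht2, div_le_div_iff₀ (by positivity) (by positivity)]
    nlinarith
  have h23 : t2 ≤ 1 / 2 := by
    rw [ht2, div_le_div_iff₀ (by positivity) (by positivity)]
    nlinarith
  have hc := FF_continuous A B N
  have hsplit : ∫ θ in (0:ℝ)..(1/2), FF A B N θ = (∫ θ in (0:ℝ)..t0, FF A B N θ)
      + (∫ θ in t0..t1, FF A B N θ) + (∫ θ in t1..t2, FF A B N θ)
      + ∫ θ in t2..(1/2), FF A B N θ := by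
    rw [intervalIntegral.integral_add_adjacent_intervals (hc.intervalIntegrable _ _)
      (hc.intervalIntegrable _ _), intervalIntegral.integral_add_adjacent_intervals
      (hc.intervalIntegrable _ _) (hc.intervalIntegrable _ _),
      intervalIntegral.integral_add_adjacent_intervals
      (hc.intervalIntegrable _ _) (hc.intervalIntegrable _ _)]
  have hmain : ∀ θ, 0 ≤ θ → θ ≤ t1 → θ * (D : ℝ) ^ 2 * κ ≤ T := by
    intro θ _ h
    calc θ * (D : ℝ) ^ 2 * κ ≤ t1 * (D : ℝ) ^ 2 * κ := by gcongr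
      _ = S := by rw [ht1]; field_simp
      _ ≤ T := hST
  -- first piece
  have i0 : (t0 - 0) * (1 / 4 * ((#A : ℝ) * #B) - P * δ) ≤ ∫ θ in (0:ℝ)..t0, FF A B N θ := by
    have e1 : ∫ θ in (0:ℝ)..t0, (1 / 4 * ((#A : ℝ) * #B) - P * δ)
        ≤ ∫ θ in (0:ℝ)..t0, FF A B N θ := by
      apply intervalIntegral.integral_mono_on h00
      · exact continuous_const.intervalIntegrable _ _
      · exact hc.intervalIntegrable _ _
      · intro θ hθ
        have e2 := FF_ge_main hD hT1 hκ hθ.1 (hmain θ hθ.1 (hθ.2.trans h01)) A B N hpar hA hB hN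
        have e3 := gamma_ge (κ := κ) hD (by omega) hθ.1 hθ.2
        rw [← hP, ← hδ] at e2
        have e4 : 0 ≤ 1 / 2 * ((#A : ℝ) * #B) := by positivity
        nlinarith
    rwa [intervalIntegral.integral_const, smul_eq_mul] at e1
  have i1 : (t1 - t0) * (-(P * δ)) ≤ ∫ θ in t0..t1, FF A B N θ := by
    have e1 : ∫ θ in t0..t1, (-(P * δ)) ≤ ∫ θ in t0..t1, FF A B N θ := by
      apply intervalIntegral.integral_mono_on h01
      · exact continuous_const.intervalIntegrable _ _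
      · exact hc.intervalIntegrable _ _
      · intro θ hθ
        have e2 := FF_ge_main hD hT1 hκ (h00.trans hθ.1) (hmain θ (h00.trans hθ.1) hθ.2)
          A B N hpar hA hB hN
        rw [← hP, ← hδ] at e2
        have e3 : 0 ≤ Real.exp (-((2 * Real.pi ^ 2 * VV D * θ ^ 2) *
          (4 * (κ : ℝ) ^ 2 * VV D))) * (1 / 2 * ((#A : ℝ) * #B)) := by positivity
        linarith
    rwa [intervalIntegral.integral_const, smul_eq_mul] at e1
  have i2 : -(P * (128 / (3 * κ * (D : ℝ) ^ 2 * S ^ 3))) ≤ ∫ θ in t1..t2, FF A B N θ := by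
    have e1 : ∫ θ in t1..t2, (-(P * Psi D θ ^ (κ ^ 2))) ≤ ∫ θ in t1..t2, FF A B N θ := by
      apply intervalIntegral.integral_mono_on h12
      · exact ((((Psi_continuous D).pow _).const_mul P).neg).intervalIntegrable _ _
      · exact hc.intervalIntegrable _ _
      · intro θ _
        exact FF_ge_Psi A B N θ hpar
    rw [intervalIntegral.integral_neg, intervalIntegral.integral_const_mul] at e1
    have e2 := mul_le_mul_of_nonneg_left (int_mid (D := D) hD hS0 hκ2) hP0.le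
    linarith
  have i3 : -(P * (16000 / ((κ : ℝ) ^ 2 * (D : ℝ) ^ 2))) ≤ ∫ θ in t2..(1/2), FF A B N θ := by
    have e1 : ∫ θ in t2..(1/2), (-(P * Psi D θ ^ (κ ^ 2))) ≤ ∫ θ in t2..(1/2), FF A B N θ := by
      apply intervalIntegral.integral_mono_on h23
      · exact ((((Psi_continuous D).pow _).const_mul P).neg).intervalIntegrable _ _
      · exact hc.intervalIntegrable _ _
      · intro θ _
        exact FF_ge_Psi A B N θ hpar
    rw [intervalIntegral.integral_neg, intervalIntegral.integral_const_mul] at e1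
    have e2 := mul_le_mul_of_nonneg_left (int_out (κ := κ) hD hκ1) hP0.le
    linarith
  -- the product of the cardinalities
  have hab : P / (384 * q * T) ^ 2 ≤ (#A : ℝ) * #B := by
    have e1 : P / (384 * q * T) ^ 2
        = (nn D ^ (4 * κ ^ 2) / (384 * q * T)) * (nn D ^ (4 * κ ^ 2) / (384 * q * T)) := by
      rw [hP, div_mul_div_comm, ← pow_add, ← pow_two]
      congr 2
      ring
    rw [e1]
    exact mul_le_mul hcA hcB (by positivity) (by positivity)
  have hfin : t0 * (1 / 4 * (P / (384 * q * T) ^ 2)) ≤ t1 * (P * δ)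
      + P * (128 / (3 * κ * (D : ℝ) ^ 2 * S ^ 3)) + P * (16000 / ((κ : ℝ) ^ 2 * (D : ℝ) ^ 2)) := by
    have e1 : t0 * (1 / 4 * (P / (384 * q * T) ^ 2)) ≤ t0 * (1 / 4 * ((#A : ℝ) * #B)) := by gcongr
    rw [hsplit] at hint
    nlinarith
  -- numerical contradiction
  have hfin2 : 1 / (5898240 * q ^ 2 * T ^ 2) ≤ S / (4 * 10 ^ 9 * T ^ 3) + 128 / (3 * S ^ 3)
      + 16000 / κ := by
    have hQ : 0 < P / (κ * (D : ℝ) ^ 2) := by positivity
    have e1 : t0 * (1 / 4 * (P / (384 * q * T) ^ 2))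
        = P / (κ * (D : ℝ) ^ 2) * (1 / (5898240 * q ^ 2 * T ^ 2)) := by
      rw [ht0]; field_simp; norm_num
    have e2 : t1 * (P * δ) = P / (κ * (D : ℝ) ^ 2) * (S / (4 * 10 ^ 9 * T ^ 3)) := by
      rw [ht1, hδ]; field_simp
    have e3 : P * (128 / (3 * κ * (D : ℝ) ^ 2 * S ^ 3))
        = P / (κ * (D : ℝ) ^ 2) * (128 / (3 * S ^ 3)) := by
      field_simp
    have e4 : P * (16000 / ((κ : ℝ) ^ 2 * (D : ℝ) ^ 2)) = P / (κ * (D : ℝ) ^ 2) * (16000 / κ) := by
      field_simp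
    rw [e1, e2, e3, e4, ← mul_add, ← mul_add] at hfin
    exact le_of_mul_le_mul_left hfin hQ
  have g1 : S / (4 * 10 ^ 9 * T ^ 3) = 1 / (4 * 10 ^ 9) * (1 / L ^ 9) := by
    rw [hS, hT]; field_simp
  have g2 : 128 / (3 * S ^ 3) = 128 / 3 * (1 / L ^ 9) := by
    rw [hS]; field_simp
  have g3 : 16000 / (κ : ℝ) ≤ 1 / L ^ 9 := by
    rw [div_le_div_iff₀ hκ0 (by positivity)]
    have : L ^ 9 ≤ (L ^ 4) ^ 8 := by
      rw [← pow_mul]
      exact pow_le_pow_right₀ hL1 (by norm_num)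
    have h9 : (0 : ℝ) ≤ L ^ 9 := by positivity
    nlinarith
  have g4 : 1 / (5898240 * q ^ 2 * T ^ 2) = L / (5898240 * q ^ 2) * (1 / L ^ 9) := by
    rw [hT]; field_simp
  have g5 : 169 ≤ L / (5898240 * q ^ 2) := by
    rw [le_div_iff₀ (by positivity)]
    nlinarith
  have g6 : 0 < 1 / L ^ 9 := by positivity
  rw [g1, g2, g4] at hfin2
  have g7 : 169 * (1 / L ^ 9) ≤ L / (5898240 * q ^ 2) * (1 / L ^ 9) :=
    mul_le_mul_of_nonneg_right g5 g6.le
  nlinarith

end Pool.Agent.H5.TP
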