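import Mathlib

/-!
# Thickened spaces: definitions
-/

set_option autoImplicit false

namespace Pool.Agent.H5.TP

/-- The set `ℝⁿ × Y ⊂ ℝⁿ⁺ᵏ` for a set `Y ⊂ ℝᵏ`. -/
def Layer (n : ℕ) {k : ℕ} (Y : Set (Fin k → ℝ)) : Set (EuclideanSpace ℝ (Fin (n + k))) :=
  {x | (fun i : Fin k => x (Fin.natAdd n i)) ∈ Y}

/-- The set `ℝⁿ × [0, ε]ᵏ ⊂ ℝⁿ⁺ᵏ`: the last `k` coordinates lie in `[0, ε]`. -/
def Slab (n k : ℕ) (ε : ℝ) : Set (EuclideanSpace ℝ (Fin (n + k))) :=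
  {x | ∀ i : Fin k, x (Fin.natAdd n i) ∈ Set.Icc 0 ε}

/-- The set `X` has a colouring with `m` colours in which two points whose distance lies in `𝒟` have
different colours. -/
def Colourable (𝒟 : Set ℝ) {N : ℕ} (X : Set (EuclideanSpace ℝ (Fin N))) (m : ℕ) : Prop :=
  ∃ φ : X → Fin m, ∀ x y : X,
    dist (x : EuclideanSpace ℝ (Fin N)) (y : EuclideanSpace ℝ (Fin N)) ∈ 𝒟 → φ x ≠ φ y

/-- The chromatic number `χ_𝒟(X)`: the least positive number of colours. -/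
noncomputable def chi (𝒟 : Set ℝ) {N : ℕ} (X : Set (EuclideanSpace ℝ (Fin N))) : ℕ :=
  sInf {m : ℕ | 0 < m ∧ Colourable 𝒟 X m}

/-- The space `ℝⁿ`, as a subset of itself. -/
abbrev space (n : ℕ) : Set (EuclideanSpace ℝ (Fin n)) := Set.univ

end Pool.Agent.H5.TP
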