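import Pool.Agent.H5.TP.Cross

/-!
The transfer in all dimensions: a proper colouring of `ℝⁿ × [0, ε]ᵏ` with `q` colours gives a colouring
of `ℝⁿ` with `q` colours without a forbidden interval of distances.
-/

set_option autoImplicit false

namespace Pool.Agent.H5.TP

open Finset Filter Topology Pool.Agent.N554.SL

/-- the space `ℝⁿ` -/
abbrev En (n : ℕ) : Type := EuclideanSpace ℝ (Fin n)

/-- the grid point -/
noncomputable def Gn {n : ℕ} (M : ℝ) (z : Fin n → ℤ) : En n :=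
  WithLp.toLp 2 fun i => 2 * (z i : ℝ) / √M

lemma Gn_dist {n : ℕ} {M : ℝ} (hM : 0 < M) (z w : Fin n → ℤ) : dist (Gn M z) (Gn M w) ^ 2
    = 4 * (∑ i, ((z i : ℝ) - w i) ^ 2) / M := by
  have hs : 0 < √M := Real.sqrt_pos.2 hM
  have hs2 : √M ^ 2 = M := Real.sq_sqrt hM.le
  rw [EuclideanSpace.dist_eq, Real.sq_sqrt (Finset.sum_nonneg fun _ _ => sq_nonneg _),
    Finset.mul_sum, Finset.sum_div]
  refine Finset.sum_congr rfl fun i _ => ?_
  unfold Gn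
  simp only [Real.dist_eq, sq_abs]
  nth_rewrite 3 [← hs2]
  field_simp
  ring

/-- one scale -/
lemma step {κ L q D j n : ℕ} (hL : 10 ^ 9 * q ^ 2 ≤ L) (hκ : 10 ^ 22 * (L ^ 4) ^ 8 ≤ κ) {ε : ℝ}
    (hε : 0 < ε) (hD : 1 ≤ D) (hgood : Good κ (L ^ 4) D j)
    (c : En n → (Fin (4 * κ ^ 2) → ℝ) → Fin q)
    (hc : ∀ u v s t, (∀ i, 0 ≤ s i ∧ s i ≤ ε) → (∀ i, 0 ≤ t i ∧ t i ≤ ε) →
      dist u v ^ 2 + ∑ i, (s i - t i) ^ 2 = 1 → c u s ≠ c v t) :
    ∃ col : (Fin n → ℤ) → Fin q, ∀ z w, col z = col w → 2 * ww κ (L ^ 4) D / Mz ε D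
      ≤ |1 - dist (Gn (Mz ε D) z) (Gn (Mz ε D) w) ^ 2 - 2 * RR κ (L ^ 4) D j / Mz ε D| := by
  classical
  obtain ⟨W, hW1, hW2, hW3⟩ := hgood
  have hm0 : Nonempty (Fin q) := ⟨c 0 0⟩
  have hq1 : 1 ≤ q := by
    rcases Nat.eq_zero_or_pos q with h | h
    · subst h
      exact hm0.elim fun i => i.elim0
    · exact h
  have hM := Mz_pos hε hD
  have hn := nn_pos D
  have hq1' : (1 : ℝ) ≤ q := by exact_mod_cast hq1
  have hq0 : (0 : ℝ) < q := by linarith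
  have hL1 : (10 : ℝ) ^ 9 * (q : ℝ) ^ 2 ≤ L := by exact_mod_cast hL
  have hκ1 : (10 : ℝ) ^ 22 * ((L : ℝ) ^ 4) ^ 8 ≤ κ := by exact_mod_cast hκ
  have hL0 : (0 : ℝ) < L := by nlinarith [one_le_pow₀ (n := 2) hq1']
  have hcast : ((L ^ 4 : ℕ) : ℝ) = (L : ℝ) ^ 4 := by push_cast; ring
  have hT0 : (0 : ℝ) < (L : ℝ) ^ 4 := by positivity
  rw [hcast] at hW1
  have hWpos : (0 : ℝ) < #W := lt_of_lt_of_le (by positivity) hW1
  have hex : ∀ z : Fin n → ℤ, ∃ i : Fin q, (#W : ℝ) / q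
      ≤ #(W.filter (fun a => c (Gn (Mz ε D) z) (Fb (Mz ε D) a) = i)) := by
    intro z
    obtain ⟨i, _, hi⟩ := Finset.exists_le_card_fiber_of_nsmul_le_card_of_maps_to
      (s := W) (t := (Finset.univ : Finset (Fin q)))
      (f := fun a => c (Gn (Mz ε D) z) (Fb (Mz ε D) a)) (b := (#W : ℝ) / q)
      (fun _ _ => Finset.mem_univ _) Finset.univ_nonempty (by
        rw [Finset.card_univ, Fintype.card_fin, nsmul_eq_mul]
        apply le_of_eq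
        field_simp)
    exact ⟨i, hi⟩
  choose col hcol using hex
  refine ⟨col, fun z w hzw => ?_⟩
  by_contra hcon
  rw [not_le] at hcon
  set A := W.filter (fun a => c (Gn (Mz ε D) z) (Fb (Mz ε D) a) = col z) with hA
  set B := W.filter (fun a => c (Gn (Mz ε D) w) (Fb (Mz ε D) a) = col z) with hB
  have hAc : (#W : ℝ) / q ≤ #A := hcol z
  have hBc : (#W : ℝ) / q ≤ #B := by
    have := hcol w
    rw [← hzw] at this
    exact this
  set N : ℤ := (Mz ε D : ℤ) - 4 * ∑ i, (z i - w i) ^ 2 with hN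
  have hdist := Gn_dist hM z w
  have hNr : 1 - dist (Gn (Mz ε D) z) (Gn (Mz ε D) w) ^ 2 - 2 * RR κ (L ^ 4) D j / Mz ε D
      = ((N : ℝ) - 2 * RR κ (L ^ 4) D j) / Mz ε D := by
    rw [hdist, hN]
    push_cast
    field_simp
  rw [hNr, abs_div, abs_of_pos hM, div_lt_div_iff_of_pos_right hM] at hcon
  have h6 : nn D ^ (4 * κ ^ 2) / (384 * q * (L : ℝ) ^ 4) ≤ (#W : ℝ) / q := by
    rw [le_div_iff₀ hq0]
    refine le_trans (le_of_eq ?_) hW1
    field_simp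
  have hww : ww κ (L ^ 4) D = κ * (D : ℝ) ^ 2 / (12 * (L : ℝ) ^ 4) := by
    unfold ww
    rw [hcast]
  rw [hww] at hcon hW2
  obtain ⟨a, ha, b, hb, hab⟩ := cross (R := RR κ (L ^ 4) D j) hD hq1' hL1 hκ1 A B N
    (by
      intro a ha b hb
      have h1 := hW3 a (Finset.mem_filter.1 ha).1 b (Finset.mem_filter.1 hb).1
      rw [dist2_int, hN]
      unfold Mz
      push_cast
      omega)
    (fun a ha => hW2 a (Finset.mem_filter.1 ha).1)
    (fun a ha => hW2 a (Finset.mem_filter.1 ha).1)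
    hcon.le (h6.trans hAc) (h6.trans hBc)
  have ha2 := (Finset.mem_filter.1 ha).2
  have hb2 := (Finset.mem_filter.1 hb).2
  apply hc (Gn (Mz ε D) z) (Gn (Mz ε D) w) (Fb (Mz ε D) a) (Fb (Mz ε D) b)
    (fun i => Fb_mem hε hD a i) (fun i => Fb_mem hε hD b i) _ (ha2.trans hb2.symm)
  rw [hdist, Fb_dist hM, hab, hN]
  push_cast
  field_simp
  ring

/-- the nearest grid point -/
noncomputable def zn {n : ℕ} (M : ℝ) (x : En n) : Fin n → ℤ := fun i => round (x i * √M / 2)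

lemma zn_dist {n : ℕ} {M : ℝ} (hM : 0 < M) (x : En n) : dist (Gn M (zn M x)) x ≤ √(n / M) := by
  have hs : 0 < √M := Real.sqrt_pos.2 hM
  have hs2 : √M ^ 2 = M := Real.sq_sqrt hM.le
  rw [EuclideanSpace.dist_eq]
  apply Real.sqrt_le_sqrt
  have key : ∀ y : ℝ, dist (2 * ((round (y * √M / 2) : ℤ) : ℝ) / √M) y ^ 2 ≤ 1 / M := by
    intro y
    rw [Real.dist_eq, sq_abs]
    have h1 : 2 * ((round (y * √M / 2) : ℤ) : ℝ) / √M - y
        = -(2 * (y * √M / 2 - ((round (y * √M / 2) : ℤ) : ℝ))) / √M := by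
      field_simp
      ring
    rw [h1, div_pow, hs2]
    have h2 := abs_sub_round (y * √M / 2)
    have h3 : (y * √M / 2 - ((round (y * √M / 2) : ℤ) : ℝ)) ^ 2 ≤ (1 / 2) ^ 2 := by
      rw [← sq_abs]
      exact pow_le_pow_left₀ (abs_nonneg _) h2 2
    gcongr
    nlinarith
  calc ∑ i, dist ((Gn M (zn M x)) i) (x i) ^ 2 ≤ ∑ _i : Fin n, 1 / M :=
        Finset.sum_le_sum fun i _ => key (x i)
    _ = n / M := by
        rw [Finset.sum_const, Finset.card_univ, Fintype.card_fin, nsmul_eq_mul]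
        ring

lemma tendsto_Mz_inv' {ε : ℝ} (hε : 0 < ε) (n : ℕ) :
    Tendsto (fun D : ℕ => √(n / (Mz ε D : ℝ))) atTop (𝓝 0) := by
  have h1 := (tendsto_Mz_inv hε).const_mul (√(n / 2))
  rw [mul_zero] at h1
  refine h1.congr fun D => ?_
  rw [← Real.sqrt_mul (by positivity)]
  congr 1
  ring

lemma tendsto_grid' {n : ℕ} {ε : ℝ} (hε : 0 < ε) (x : En n) :
    Tendsto (fun D : ℕ => Gn (Mz ε D) (zn (Mz ε D) x)) atTop (𝓝 x) := by
  rw [tendsto_iff_dist_tendsto_zero]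
  refine squeeze_zero' (Eventually.of_forall fun _ => dist_nonneg) ?_ (tendsto_Mz_inv' hε n)
  filter_upwards [eventually_ge_atTop 1] with D hD
  exact zn_dist (Mz_pos hε hD) x

/-- a colouring of `ℝⁿ` that avoids an interval of distances -/
lemma space_colouring {κ L q n : ℕ} (hL : 10 ^ 9 * q ^ 2 ≤ L) (hκ : 10 ^ 22 * (L ^ 4) ^ 8 ≤ κ)
    {ε : ℝ} (hε : 0 < ε) (c : En n → (Fin (4 * κ ^ 2) → ℝ) → Fin q)
    (hc : ∀ u v s t, (∀ i, 0 ≤ s i ∧ s i ≤ ε) → (∀ i, 0 ≤ t i ∧ t i ≤ ε) →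
      dist u v ^ 2 + ∑ i, (s i - t i) ^ 2 = 1 → c u s ≠ c v t) :
    ∃ j < 96 * L ^ 4, ∃ col : En n → Fin q, ∀ x y, col x = col y →
      2 * (κ / (12 * ((L ^ 4 : ℕ) : ℝ))) * (ε ^ 2 / 4) ≤ |1 - dist x y ^ 2 - rho κ (L ^ 4) j ε| := by
  classical
  have hm0 : Nonempty (Fin q) := ⟨c 0 0⟩
  have hq1 : 1 ≤ q := by
    rcases Nat.eq_zero_or_pos q with h | h
    · subst h
      exact hm0.elim fun i => i.elim0
    · exact h
  have hL1 : 1 ≤ L := by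
    have : 1 ≤ q ^ 2 := Nat.one_le_pow _ _ hq1
    omega
  have hT1 : 1 ≤ L ^ 4 := Nat.one_le_pow _ _ hL1
  have hκ1 : 1 ≤ κ := le_trans (by
    have : 1 ≤ (L ^ 4) ^ 8 := Nat.one_le_pow _ _ hT1
    omega) hκ
  obtain ⟨j, hj, hinf⟩ := window_inf (κ := κ) (T := L ^ 4) hκ1 hT1
  refine ⟨j, hj, ?_⟩
  set S : Set ℕ := {D | 1 ≤ D ∧ Good κ (L ^ 4) D j} with hS
  have hne : NeBot (atTop ⊓ 𝓟 S) := by
    rw [← Filter.frequently_mem_iff_neBot, Filter.frequently_atTop]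
    intro D₀
    obtain ⟨D, hD0, hD1, hD2⟩ := hinf D₀
    exact ⟨D, hD0, hD1, hD2⟩
  let U : Ultrafilter ℕ := Ultrafilter.of (atTop ⊓ 𝓟 S)
  have hU : (U : Filter ℕ) ≤ atTop ⊓ 𝓟 S := Ultrafilter.of_le _
  have hU1 : (U : Filter ℕ) ≤ atTop := hU.trans inf_le_left
  have hU2 : S ∈ (U : Filter ℕ) := Filter.le_principal_iff.1 (hU.trans inf_le_right)
  have hstep : ∀ D, ∃ col : (Fin n → ℤ) → Fin q, D ∈ S → ∀ z w, col z = col w →
      2 * ww κ (L ^ 4) D / Mz ε D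
        ≤ |1 - dist (Gn (Mz ε D) z) (Gn (Mz ε D) w) ^ 2 - 2 * RR κ (L ^ 4) D j / Mz ε D| := by
    intro D
    by_cases hD : D ∈ S
    · obtain ⟨col, hcol⟩ := step hL hκ hε hD.1 hD.2 c hc
      exact ⟨col, fun _ => hcol⟩
    · exact ⟨fun _ => Classical.arbitrary _, fun h => absurd h hD⟩
  choose cD hcD using hstep
  have hlim : ∀ x : En n, ∃ i : Fin q, ∀ᶠ D in (U : Filter ℕ), cD D (zn (Mz ε D) x) = i := by
    intro x
    obtain ⟨i, hi⟩ := Ultrafilter.eq_pure_of_finite (U.map (fun D => cD D (zn (Mz ε D) x)))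
    refine ⟨i, ?_⟩
    have h1 : ({i} : Set (Fin q)) ∈ U.map (fun D => cD D (zn (Mz ε D) x)) := by
      rw [hi]
      exact Ultrafilter.mem_pure.2 rfl
    exact h1
  choose col hcol using hlim
  refine ⟨col, fun x y hxy => ?_⟩
  have hx := (tendsto_grid' hε x).mono_left hU1
  have hy := (tendsto_grid' hε y).mono_left hU1
  have h1 := (tendsto_ww hε κ (L ^ 4)).mono_left hU1
  have h2 := (tendsto_RR hε κ (L ^ 4) j).mono_left hU1
  have h3 : Tendsto (fun D : ℕ => |1 - dist (Gn (Mz ε D) (zn (Mz ε D) x))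
      (Gn (Mz ε D) (zn (Mz ε D) y)) ^ 2 - 2 * RR κ (L ^ 4) D j / Mz ε D|) (U : Filter ℕ)
      (𝓝 |1 - dist x y ^ 2 - rho κ (L ^ 4) j ε|) :=
    (((hx.dist hy).pow 2).const_sub 1 |>.sub h2).abs
  refine le_of_tendsto_of_tendsto h1 h3 ?_
  filter_upwards [hcol x, hcol y, hU2] with D h4 h5 h6
  exact hcD D h6 _ _ (by rw [h4, h5, hxy])

/-- **the transfer**: a colouring of `ℝⁿ` that avoids the distances in `[1 - δ, 1 + δ]` -/
theorem interval_colouring {κ L q n : ℕ} (hL : 10 ^ 9 * q ^ 2 ≤ L)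
    (hκ : 10 ^ 22 * (L ^ 4) ^ 8 ≤ κ) {ε : ℝ} (hε : 0 < ε)
    (c : En n → (Fin (4 * κ ^ 2) → ℝ) → Fin q)
    (hc : ∀ u v s t, (∀ i, 0 ≤ s i ∧ s i ≤ ε) → (∀ i, 0 ≤ t i ∧ t i ≤ ε) →
      dist u v ^ 2 + ∑ i, (s i - t i) ^ 2 = 1 → c u s ≠ c v t) :
    ∃ δ : ℝ, 0 < δ ∧ ∃ col : En n → Fin q, ∀ x y,
      dist x y ∈ Set.Icc (1 - δ) (1 + δ) → col x ≠ col y := by
  classical
  have hm0 : Nonempty (Fin q) := ⟨c 0 0⟩
  have hq1 : 1 ≤ q := by
    rcases Nat.eq_zero_or_pos q with h | h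
    · subst h
      exact hm0.elim fun i => i.elim0
    · exact h
  have hL1 : 1 ≤ L := by
    have : 1 ≤ q ^ 2 := Nat.one_le_pow _ _ hq1
    omega
  have hT1 : 1 ≤ L ^ 4 := Nat.one_le_pow _ _ hL1
  obtain ⟨T, hT⟩ : ∃ T : ℕ, T = L ^ 4 := ⟨_, rfl⟩
  have hT0 : (1 : ℝ) ≤ T := by rw [hT]; exact_mod_cast hT1
  have hκ12' : 12 ≤ κ := le_trans (by
    have : 1 ≤ (L ^ 4) ^ 8 := Nat.one_le_pow _ _ hT1
    omega) hκ
  have hκ12 : (12 : ℝ) ≤ κ := by exact_mod_cast hκ12'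
  have hκ0 : (0 : ℝ) < κ := by linarith
  -- shrink
  set e : ℝ := min ε (1 / (2 * κ)) with he
  have he0 : 0 < e := lt_min hε (by positivity)
  have heε : e ≤ ε := min_le_left _ _
  have heκ : e * κ ≤ 1 / 2 := by
    have : e ≤ 1 / (2 * κ) := min_le_right _ _
    calc e * κ ≤ 1 / (2 * κ) * κ := by gcongr
      _ = 1 / 2 := by field_simp
  obtain ⟨j, hj, col, hcol⟩ := space_colouring hL hκ he0 c
    (fun u v s t hs ht h => hc u v s t (fun i => ⟨(hs i).1, (hs i).2.trans heε⟩)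
      (fun i => ⟨(ht i).1, (ht i).2.trans heε⟩) h)
  rw [← hT] at hj hcol
  set δ : ℝ := 2 * (κ / (12 * T)) * (e ^ 2 / 4) with hδ
  have hδ0 : 0 < δ := by positivity
  have hrho : rho κ T j e ≤ 1 / 4 := by
    have hj' : (j : ℝ) + 1 ≤ 96 * T := by exact_mod_cast hj
    have h1 : (2 * (j : ℝ) + 1) * (κ / (12 * T)) ≤ 16 * κ := by
      calc (2 * (j : ℝ) + 1) * (κ / (12 * T)) ≤ (192 * T) * (κ / (12 * T)) := by
            gcongr
            linarith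
        _ = 16 * κ := by field_simp; norm_num
    have h2 : (e * κ) ^ 2 ≤ (1 / 2) ^ 2 := pow_le_pow_left₀ (by positivity) heκ 2
    unfold rho
    have h3 : 4 / 3 * (κ : ℝ) ^ 2 - 8 * κ + (2 * j + 1) * (κ / (12 * T)) ≤ 2 * (κ : ℝ) ^ 2 := by
      nlinarith
    calc 2 * (4 / 3 * (κ : ℝ) ^ 2 - 8 * κ + (2 * j + 1) * (κ / (12 * T))) * (e ^ 2 / 4)
        ≤ 2 * (2 * (κ : ℝ) ^ 2) * (e ^ 2 / 4) := by gcongr
      _ = (e * κ) ^ 2 := by ring
      _ ≤ 1 / 4 := by linarith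
  set d : ℝ := √(1 - rho κ T j e) with hd
  have hd2 : d ^ 2 = 1 - rho κ T j e := Real.sq_sqrt (by linarith)
  have hd0 : 0 < d := Real.sqrt_pos.2 (by linarith)
  have hdd : 0 < d ^ 2 := by positivity
  set η : ℝ := min 1 (δ / (4 * d ^ 2)) with hη
  have hη0 : 0 < η := lt_min one_pos (by positivity)
  have hη1 : η ≤ 1 := min_le_left _ _
  have hη2 : d ^ 2 * (4 * η) ≤ δ := by
    have h1 : η ≤ δ / (4 * d ^ 2) := min_le_right _ _
    rw [le_div_iff₀ (by positivity)] at h1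
    linarith
  refine ⟨η, hη0, fun x => col (d • x), fun x y hxy heq => ?_⟩
  have h1 := hcol _ _ heq
  rw [dist_smul₀, Real.norm_of_nonneg hd0.le, mul_pow,
    show 1 - d ^ 2 * dist x y ^ 2 - rho κ T j e = d ^ 2 * ((1 - dist x y) * (1 + dist x y)) by
      rw [hd2]; ring, abs_mul, abs_of_pos hdd, abs_mul] at h1
  have h2 : |1 - dist x y| ≤ η := by
    rw [abs_le]
    constructor <;> linarith [hxy.1, hxy.2]
  have h3 : |1 + dist x y| ≤ 3 := by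
    rw [abs_of_nonneg (by linarith [dist_nonneg (x := x) (y := y)])]
    linarith [hxy.2]
  have h4 : |1 - dist x y| * |1 + dist x y| ≤ η * 3 :=
    mul_le_mul h2 h3 (abs_nonneg _) hη0.le
  have h5 : d ^ 2 * (|1 - dist x y| * |1 + dist x y|) ≤ d ^ 2 * (η * 3) :=
    mul_le_mul_of_nonneg_left h4 hdd.le
  have h6 : 0 < d ^ 2 * η := by positivity
  linarith

end Pool.Agent.H5.TP
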