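import Pool.Agent.H5.TP.Defs
import Pool.Agent.H5.TP.Transfer
import Pool.Graph.R_pool_sql_team_seeded_63374d34.N554.SL.Upper

/-!
# Colourings of layers and colourings without an interval of distances
-/

set_option autoImplicit false

namespace Pool.Agent.H5.TP

open Finset Pool.Agent.N554.SL

/-- the point of the layer over a point of `ℝⁿ` with a given fibre part -/
noncomputable def pt {n k₁ l : ℕ} (b : Fin (k₁ + l) → ℝ) (u : En n) (s : Fin k₁ → ℝ) :
    EuclideanSpace ℝ (Fin (n + (k₁ + l))) :=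
  WithLp.toLp 2 (Fin.append (fun i : Fin n => u i)
    (fun i => b i + Fin.append s (fun _ : Fin l => (0 : ℝ)) i))

lemma pt_mem {n k₁ l : ℕ} {b : Fin (k₁ + l) → ℝ} {Y : Set (Fin (k₁ + l) → ℝ)} {ε : ℝ}
    (hε : 0 < ε) (hY : ∀ s : Fin (k₁ + l) → ℝ, (∀ i, 0 ≤ s i ∧ s i ≤ ε) → (fun i => b i + s i) ∈ Y)
    (u : En n) (s : Fin k₁ → ℝ) (hs : ∀ i, 0 ≤ s i ∧ s i ≤ ε) : pt b u s ∈ Layer n Y := by
  unfold Layer pt
  simp only [Set.mem_ofPred_eq, Fin.append_right]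
  apply hY
  intro i
  refine Fin.addCases (fun i => ?_) (fun i => ?_) i
  · rw [Fin.append_left]
    exact hs i
  · rw [Fin.append_right]
    exact ⟨le_rfl, hε.le⟩

lemma pt_dist {n k₁ l : ℕ} (b : Fin (k₁ + l) → ℝ) (u v : En n) (s t : Fin k₁ → ℝ) :
    dist (pt b u s) (pt b v t) = √(dist u v ^ 2 + ∑ i, (s i - t i) ^ 2) := by
  rw [EuclideanSpace.dist_eq, Fin.sum_univ_add, Fin.sum_univ_add, EuclideanSpace.dist_eq,
    Real.sq_sqrt (Finset.sum_nonneg fun _ _ => sq_nonneg _)]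
  unfold pt
  simp [Fin.append_left, Fin.append_right, Real.dist_eq, sq_abs]

/-- a colouring of a layer gives a colouring of the product with a cube -/
lemma layer_reduce {n k₁ l q : ℕ} {Y : Set (Fin (k₁ + l) → ℝ)} (hY : (interior Y).Nonempty)
    (h : Colourable {1} (Layer n Y) q) :
    ∃ ε : ℝ, 0 < ε ∧ ∃ c : En n → (Fin k₁ → ℝ) → Fin q, ∀ u v s t,
      (∀ i, 0 ≤ s i ∧ s i ≤ ε) → (∀ i, 0 ≤ t i ∧ t i ≤ ε) →
      dist u v ^ 2 + ∑ i, (s i - t i) ^ 2 = 1 → c u s ≠ c v t := by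
  classical
  obtain ⟨b, hb⟩ := hY
  obtain ⟨r, hr, hball⟩ := Metric.isOpen_iff.1 isOpen_interior b hb
  have hε : 0 < r / 2 := by linarith
  have hcube : ∀ s : Fin (k₁ + l) → ℝ, (∀ i, 0 ≤ s i ∧ s i ≤ r / 2) →
      (fun i => b i + s i) ∈ Y := by
    intro s hs
    apply interior_subset
    apply hball
    rw [Metric.mem_ball]
    refine lt_of_le_of_lt ((dist_pi_le_iff hε.le).2 fun i => ?_) (by linarith : r / 2 < r)
    rw [Real.dist_eq, show b i + s i - b i = s i by ring, abs_of_nonneg (hs i).1]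
    exact (hs i).2
  obtain ⟨φ, hφ⟩ := h
  have hx : pt b (0 : En n) (0 : Fin k₁ → ℝ) ∈ Layer n Y :=
    pt_mem hε hcube 0 0 (fun i => ⟨le_rfl, hε.le⟩)
  have i0 : Fin q := φ ⟨_, hx⟩
  let c : En n → (Fin k₁ → ℝ) → Fin q := fun u s =>
    if h : pt b u s ∈ Layer n Y then φ ⟨_, h⟩ else i0
  refine ⟨r / 2, hε, c, ?_⟩
  intro u v s t hs ht h
  have h1 := pt_mem hε hcube u s hs
  have h2 := pt_mem hε hcube v t ht
  have h3 := hφ ⟨_, h1⟩ ⟨_, h2⟩ (by rw [pt_dist, h, Real.sqrt_one]; rfl)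
  simp only [c]
  rw [dif_pos h1, dif_pos h2]
  exact h3

/-- **the lower bound**: a colouring of a layer with `q` colours gives a colouring of `ℝⁿ` with `q`
colours that avoids an interval of distances -/
theorem lower {n q k : ℕ} (hk : 4 * 10 ^ 620 * q ^ 128 ≤ k) {Y : Set (Fin k → ℝ)}
    (hY : (interior Y).Nonempty) (h : Colourable {1} (Layer n Y) q) :
    ∃ δ : ℝ, 0 < δ ∧ Colourable (Set.Icc (1 - δ) (1 + δ)) (space n) q := by
  obtain ⟨κ, hκ⟩ : ∃ κ : ℕ, κ = 10 ^ 310 * q ^ 64 := ⟨_, rfl⟩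
  have h1 : 4 * κ ^ 2 ≤ k := by
    rw [show (620 : ℕ) = 310 * 2 from rfl, show (128 : ℕ) = 64 * 2 from rfl] at hk
    rw [hκ, mul_pow, ← pow_mul, ← pow_mul, ← mul_assoc]
    exact hk
  obtain ⟨l, rfl⟩ := Nat.exists_eq_add_of_le h1
  obtain ⟨ε, hε, c, hc⟩ := layer_reduce hY h
  have h2 : 10 ^ 22 * ((10 ^ 9 * q ^ 2) ^ 4) ^ 8 ≤ κ := by
    rw [hκ, ← pow_mul, mul_pow, ← pow_mul, ← pow_mul, ← mul_assoc, ← pow_add]
  obtain ⟨δ, hδ, col, hcol⟩ := interval_colouring (le_refl (10 ^ 9 * q ^ 2)) h2 hε c hc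
  exact ⟨δ, hδ, fun x => col x, fun x y hxy => hcol _ _ hxy⟩

/-- the projection to `ℝⁿ` -/
noncomputable def pr {n k : ℕ} (x : EuclideanSpace ℝ (Fin (n + k))) : En n :=
  WithLp.toLp 2 fun i => x (Fin.castAdd k i)

lemma pr_dist {n k : ℕ} (x y : EuclideanSpace ℝ (Fin (n + k))) : dist x y ^ 2
    = dist (pr x) (pr y) ^ 2 + ∑ i : Fin k, (x (Fin.natAdd n i) - y (Fin.natAdd n i)) ^ 2 := by
  rw [EuclideanSpace.dist_eq, EuclideanSpace.dist_eq,
    Real.sq_sqrt (Finset.sum_nonneg fun _ _ => sq_nonneg _),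
    Real.sq_sqrt (Finset.sum_nonneg fun _ _ => sq_nonneg _), Fin.sum_univ_add]
  unfold pr
  simp [Real.dist_eq, sq_abs]

/-- **the upper bound** -/
theorem upper {n q k : ℕ} {δ : ℝ} (hδ : 0 < δ) {Y : Set (Fin k → ℝ)}
    (hY : ∀ s ∈ Y, ∀ t ∈ Y, ∑ i, (s i - t i) ^ 2 ≤ δ)
    (h : Colourable (Set.Icc (1 - δ) (1 + δ)) (space n) q) : Colourable {1} (Layer n Y) q := by
  obtain ⟨φ, hφ⟩ := h
  refine ⟨fun x => φ ⟨pr (x : EuclideanSpace ℝ (Fin (n + k))), trivial⟩, ?_⟩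
  rintro ⟨x, hx⟩ ⟨y, hy⟩ hxy
  have hxy' : dist x y = 1 := hxy
  apply hφ
  have h1 := pr_dist x y
  rw [hxy', one_pow] at h1
  have h2 := hY _ hx _ hy
  have h3 : 0 ≤ ∑ i : Fin k, (x (Fin.natAdd n i) - y (Fin.natAdd n i)) ^ 2 :=
    Finset.sum_nonneg fun _ _ => sq_nonneg _
  have h4 : 0 ≤ dist (pr x) (pr y) := dist_nonneg
  simp only
  constructor
  · by_contra hcon
    rw [not_le] at hcon
    nlinarith
  · nlinarith

lemma Colourable.mono_dist {𝒟 𝒟' : Set ℝ} (hD : 𝒟 ⊆ 𝒟') {N : ℕ}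
    {X : Set (EuclideanSpace ℝ (Fin N))} {m : ℕ} (h : Colourable 𝒟' X m) : Colourable 𝒟 X m := by
  obtain ⟨φ, hφ⟩ := h
  exact ⟨φ, fun x y hxy => hφ x y (hD hxy)⟩

lemma Colourable.mono_num {𝒟 : Set ℝ} {N : ℕ}
    {X : Set (EuclideanSpace ℝ (Fin N))} {m m' : ℕ} (hm : m ≤ m') (h : Colourable 𝒟 X m) :
    Colourable 𝒟 X m' := by
  obtain ⟨φ, hφ⟩ := h
  exact ⟨fun x => Fin.castLE hm (φ x), fun x y hxy heq => hφ x y hxy (Fin.castLE_injective hm heq)⟩

/-- `ℝⁿ` has a colouring with `(2n+4)ⁿ` colours that avoids an interval of distances -/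
theorem space_colourable (n : ℕ) :
    Colourable (Set.Icc (1 - 1 / (4 * ((n : ℝ) + 1))) (1 + 1 / (4 * ((n : ℝ) + 1)))) (space n)
      ((2 * n + 4) ^ n) := by
  classical
  set M : ℕ := 2 * n + 4 with hM
  have hn0 : (0 : ℝ) ≤ n := Nat.cast_nonneg n
  set s : ℝ := 1 / (2 * ((n : ℝ) + 1)) with hs
  have hs0 : 0 < s := by positivity
  let f : ℤ → Fin M := fun z => ⟨(z % (M : ℤ)).toNat, by
    have h1 := Int.emod_lt_of_pos z (by omega : (0 : ℤ) < (M : ℤ))
    have h2 := Int.emod_nonneg z (by omega : (M : ℤ) ≠ 0)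
    omega⟩
  have hf : ∀ z w, f z = f w → z = w ∨ (M : ℤ) ≤ z - w ∨ (M : ℤ) ≤ w - z := by
    intro z w h
    have h1 : (z % (M : ℤ)).toNat = (w % (M : ℤ)).toNat := congrArg Fin.val h
    have h2 := Int.emod_nonneg z (by omega : (M : ℤ) ≠ 0)
    have h3 := Int.emod_nonneg w (by omega : (M : ℤ) ≠ 0)
    have h4 : z % (M : ℤ) = w % (M : ℤ) := by omega
    have h5 : (M : ℤ) ∣ z - w := Int.ModEq.dvd (Int.ModEq.symm h4)
    rcases lt_trichotomy z w with h6 | h6 | h6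
    · right; right
      exact Int.le_of_dvd (by omega) (by rw [← neg_sub]; exact (dvd_neg).2 h5)
    · left; exact h6
    · right; left
      exact Int.le_of_dvd (by omega) h5
  let g : En n → Fin n → ℤ := fun x i => ⌊x i / s⌋
  refine ⟨fun x => finFunctionFinEquiv fun i => f (g x i), ?_⟩
  rintro ⟨x, hx0⟩ ⟨y, hy0⟩ hxy heq
  have h1 : ∀ i, f (g x i) = f (g y i) := fun i =>
    congrFun (finFunctionFinEquiv.injective heq) i
  simp only at hxy
  by_cases hall : ∀ i, g x i = g y i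
  · -- the same cell
    have h2 : dist x y ^ 2 ≤ 1 / 4 := by
      rw [EuclideanSpace.dist_eq, Real.sq_sqrt (Finset.sum_nonneg fun _ _ => sq_nonneg _)]
      have h3 : ∀ i ∈ (Finset.univ : Finset (Fin n)), dist (x i) (y i) ^ 2 ≤ s ^ 2 := by
        intro i _
        have h4 := Int.abs_sub_lt_one_of_floor_eq_floor (hall i)
        rw [← sub_div, abs_div, abs_of_pos hs0, div_lt_one hs0] at h4
        rw [Real.dist_eq]
        exact pow_le_pow_left₀ (abs_nonneg _) h4.le 2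
      refine (Finset.sum_le_sum h3).trans ?_
      rw [Finset.sum_const, Finset.card_univ, Fintype.card_fin, nsmul_eq_mul, hs, div_pow, one_pow,
        mul_one_div, div_le_div_iff₀ (by positivity) (by norm_num)]
      nlinarith
    have h5 : dist x y ≤ 1 / 2 := by
      have := dist_nonneg (x := x) (y := y)
      nlinarith
    have h6 : 1 / (4 * ((n : ℝ) + 1)) ≤ 1 / 4 := by
      rw [div_le_div_iff₀ (by positivity) (by norm_num)]
      linarith
    linarith [hxy.1]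
  · push Not at hall
    obtain ⟨i, hi⟩ := hall
    have hMr : (M : ℝ) = 2 * n + 4 := by rw [hM]; push_cast; ring
    have key : ∀ a b : ℝ, (M : ℤ) ≤ ⌊a / s⌋ - ⌊b / s⌋ → ((M : ℝ) - 1) * s ≤ a - b := by
      intro a b h
      have e1 := Int.floor_le (a / s)
      have e2 := Int.lt_floor_add_one (b / s)
      have e3 : (M : ℝ) ≤ (⌊a / s⌋ : ℝ) - (⌊b / s⌋ : ℝ) := by exact_mod_cast h
      have e4 : (M : ℝ) - 1 ≤ a / s - b / s := by linarith
      rw [← sub_div, le_div_iff₀ hs0] at e4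
      exact e4
    have h3 : ((M : ℝ) - 1) * s ≤ |x i - y i| := by
      rcases hf _ _ (h1 i) with h | h | h
      · exact absurd h hi
      · exact (key _ _ h).trans (le_abs_self _)
      · rw [abs_sub_comm]
        exact (key _ _ h).trans (le_abs_self _)
    have h4 : |x i - y i| ≤ dist x y := by
      rw [← Real.dist_eq, EuclideanSpace.dist_eq]
      apply Real.le_sqrt_of_sq_le
      exact Finset.single_le_sum (f := fun i => dist (x i) (y i) ^ 2)
        (fun _ _ => sq_nonneg _) (Finset.mem_univ i)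
    have h5 : 1 + 1 / (4 * ((n : ℝ) + 1)) < ((M : ℝ) - 1) * s := by
      rw [hs, hMr, mul_one_div, lt_div_iff₀ (by positivity)]
      have : (1 + 1 / (4 * ((n : ℝ) + 1))) * (2 * ((n : ℝ) + 1)) = 2 * (n : ℝ) + 2 + 1 / 2 := by
        field_simp
        ring
      rw [this]
      linarith
    linarith [hxy.2]

/-- the plane: at least seven colours for an interval of distances -/
theorem plane_lower {m : ℕ} {δ : ℝ} (hδ : 0 < δ)
    (h : Colourable (Set.Icc (1 - δ) (1 + δ)) (space 2) m) : 7 ≤ m := by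
  by_contra hm
  rw [not_le] at hm
  obtain ⟨φ, hφ⟩ := h
  let col : En 2 → Fin m := fun x => φ ⟨x, trivial⟩
  have hcol : ∀ x y, dist x y ∈ Set.Icc (1 - δ) (1 + δ) → col x ≠ col y :=
    fun x y h => hφ ⟨x, trivial⟩ ⟨y, trivial⟩ h
  apply Pool.Agent.N466.Pl.euclid_six m hm (fun i => closure {x | col x = i})
    (fun i => isClosed_closure)
  · intro i x hx y hy hxy
    have h1 : (x, y) ∈ closure ({x | col x = i} ×ˢ {x | col x = i}) := by
      rw [closure_prod_eq]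
      exact ⟨hx, hy⟩
    have h2 : ({x | col x = i} ×ˢ {x | col x = i} : Set (En 2 × En 2))
        ⊆ {p | δ ≤ |1 - dist p.1 p.2|} := by
      rintro ⟨p, q⟩ ⟨hp, hq⟩
      by_contra hcon
      rw [Set.mem_ofPred_eq, not_le, abs_lt] at hcon
      exact hcol p q ⟨by linarith [hcon.2], by linarith [hcon.1]⟩ (Eq.trans hp (Eq.symm hq))
    have h3 : IsClosed {p : En 2 × En 2 | δ ≤ |1 - dist p.1 p.2|} := by
      apply isClosed_le continuous_const
      fun_prop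
    have h4' := closure_minimal h2 h3 h1
    have h4 : δ ≤ |1 - dist x y| := h4'
    rw [hxy, sub_self, abs_zero] at h4
    linarith
  · rw [Set.eq_univ_iff_forall]
    intro x
    exact Set.mem_iUnion.2 ⟨col x, subset_closure rfl⟩

/-- the point of the plane as a complex number -/
noncomputable def cx (x : En 2) : ℂ := ⟨x 0, x 1⟩

lemma cx_dist (x y : En 2) : ‖cx x - cx y‖ ^ 2 = dist x y ^ 2 := by
  rw [EuclideanSpace.dist_eq, Real.sq_sqrt (Finset.sum_nonneg fun _ _ => sq_nonneg _),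
    Fin.sum_univ_two, Pool.Agent.N466.Pl.sq_dist]
  simp [cx, Real.dist_eq, sq_abs]

/-- a colouring of the plane with seven colours that avoids the squared distances in `(0.8784, 1]` -/
lemma plane_seven : ∃ f : En 2 → Fin 7, ∀ x y, 0.8784 < dist x y ^ 2 → dist x y ^ 2 ≤ 1 →
    f x ≠ f y := by
  have hcov : ∀ z : ℂ, ∃ j : Fin 7, z ∈ Pool.Agent.N466.Pl.wall (j : ℕ) :=
    Pool.Agent.N466.Pl.wall_cover
  choose f hf using hcov
  refine ⟨fun x => f (cx x), fun x y h1 h2 heq => ?_⟩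
  have h3 := hf (cx x)
  have h4 := hf (cx y)
  simp only at heq
  rw [← heq] at h4
  rw [← cx_dist] at h1 h2
  rcases wall_gap _ _ h3 _ h4 with h | h
  · linarith
  · linarith

theorem plane_upper {δ : ℝ} (hδ : δ ≤ 3 / 100) :
    Colourable (Set.Icc (1 - δ) (1 + δ)) (space 2) 7 := by
  obtain ⟨f, hf⟩ := plane_seven
  refine ⟨fun x => f ((97 / 100 : ℝ) • (x : En 2)), ?_⟩
  rintro ⟨x, hx0⟩ ⟨y, hy0⟩ hxy
  simp only at hxy
  have h1 : 97 / 100 ≤ dist x y := by linarith [hxy.1]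
  have h2 : dist x y ≤ 103 / 100 := by linarith [hxy.2]
  apply hf
  · rw [dist_smul₀, Real.norm_of_nonneg (by norm_num)]
    nlinarith
  · rw [dist_smul₀, Real.norm_of_nonneg (by norm_num)]
    nlinarith

/-- thin layers over the plane -/
theorem plane_layer_upper {k : ℕ} {Y : Set (Fin k → ℝ)}
    (hY : ∀ s ∈ Y, ∀ t ∈ Y, ∑ i, (s i - t i) ^ 2 ≤ 3 / 25) : Colourable {1} (Layer 2 Y) 7 := by
  obtain ⟨f, hf⟩ := plane_seven
  refine ⟨fun x => f (pr (x : EuclideanSpace ℝ (Fin (2 + k)))), ?_⟩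
  rintro ⟨x, hx⟩ ⟨y, hy⟩ hxy
  have hxy' : dist x y = 1 := hxy
  have h1 := pr_dist x y
  rw [hxy', one_pow] at h1
  have h2 := hY _ hx _ hy
  have h3 : 0 ≤ ∑ i : Fin k, (x (Fin.natAdd 2 i) - y (Fin.natAdd 2 i)) ^ 2 :=
    Finset.sum_nonneg fun _ _ => sq_nonneg _
  apply hf
  · norm_num
    linarith
  · linarith

/-- thick layers over the plane -/
theorem plane_layer_lower {k m : ℕ} (hk : 4 * 10 ^ 220 ≤ k) {Y : Set (Fin k → ℝ)}
    (hY : (interior Y).Nonempty) (h : Colourable {1} (Layer 2 Y) m) : 7 ≤ m := by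
  by_contra hm
  rw [not_le] at hm
  obtain ⟨κ, hκ⟩ : ∃ κ : ℕ, κ = 10 ^ 110 := ⟨_, rfl⟩
  have h1 : 4 * κ ^ 2 ≤ k := by
    rw [hκ, ← pow_mul]
    exact hk
  obtain ⟨l, rfl⟩ := Nat.exists_eq_add_of_le h1
  obtain ⟨ε, hε, c, hc⟩ := layer_reduce hY h
  obtain ⟨T, hT⟩ : ∃ T : ℕ, T = 10 ^ 11 := ⟨_, rfl⟩
  refine no_colouring hT.ge ?_ hε hm c hc
  rw [hκ, hT]
  norm_num

end Pool.Agent.H5.TP
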